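import Pool.Agent.H110R3.Urn.Stmts

set_option autoImplicit false

open MeasureTheory Filter Topology

namespace Pool.Agent.H419R3.Urn

open Pool.Agent.H110R3.Urn

lemma tot_pos {m : ℕ} (hm : 0 < m) {b : Fin m → ℕ} (hb : ∀ i, 1 ≤ b i) : 0 < tot b := by
  unfold tot
  have : Nonempty (Fin m) := ⟨⟨0, hm⟩⟩
  apply Finset.sum_pos
  · intro i _
    exact_mod_cast (hb i)
  · exact Finset.univ_nonempty

lemma X_nonneg {m : ℕ} (b : Fin m → ℕ) (i : Fin m) : 0 ≤ X b i := by
  unfold X tot
  positivity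

lemma X_le_one {m : ℕ} (b : Fin m → ℕ) (i : Fin m) : X b i ≤ 1 := by
  unfold X tot
  apply div_le_one_of_le₀
  · exact Finset.single_le_sum (f := fun j => (b j : ℝ)) (fun j _ => by positivity) (Finset.mem_univ i)
  · positivity

theorem conv : TaskConv := by
  intro hA1 hA3 hL1 hL2 hLip hL3 hL4 hM0 hM3
  intro m G inst hm hNE α hα hfin b0 hb0 Ω _ P _ c hc
  obtain ⟨C1, hC1, h1⟩ := hL1 hA1 hA3 hL2 m G hm hNE α hα
  obtain ⟨C2, hC2, hLLb, hgg0, hlip, hzero, hcomp⟩ := hLip m G hm hNE α hα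
  have hC : 0 < max C1 C2 := lt_max_of_lt_left hC1
  have hN : (0 : ℝ) < NE G := by exact_mod_cast hNE
  have hae := hM3 hA3 hM0 hA1 m G hm hNE α (LL G α) (gg G α) (max C1 C2) hC
    (fun x hx => (hLLb x hx).trans (le_max_right _ _)) hgg0 (by
      intro b hb
      refine le_trans ?_ (h1 b hb)
      have : C1 / (tot b + NE G) ^ 2 ≤ max C1 C2 / (tot b + NE G) ^ 2 :=
        div_le_div_of_nonneg_right (le_max_left _ _) (sq_nonneg _)
      linarith) b0 hb0 Ω P c hc
  obtain ⟨hA3a, hA3b, hA3c, hA3d, hA3e, hA3f, hA3g⟩ := hA3 m G hm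
  have ht0 : 0 < tot b0 := tot_pos hm hb0
  filter_upwards [hae] with ω hω
  set s : ℕ → Ch G := fun k => c k ω with hs
  set B : ℕ → Fin m → ℕ := fun n => st G b0 s n with hB
  obtain ⟨ht, h1le, hInR⟩ := hA3g b0 s hb0
  have hstep : ∀ n i, |X (B (n + 1)) i - X (B n) i| ≤ NE G / (tot b0 + ((n : ℝ) + 1) * NE G) := by
    intro n i
    have e : X (B (n + 1)) i - X (B n) i =
        ((Y G (s n) i : ℝ) - NE G * X (B n) i) / (tot (B n) + NE G) := by
      have := hA3d (B n) (s n) (h1le n) i
      exact this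
    have e2 : tot (B n) + NE G = tot b0 + ((n : ℝ) + 1) * NE G := by
      rw [hB]
      simp only
      rw [ht n]
      ring
    have hpos : 0 < tot b0 + ((n : ℝ) + 1) * NE G := by positivity
    rw [e, e2, abs_div, abs_of_pos hpos]
    apply div_le_div_of_nonneg_right _ hpos.le
    have y0 : (0 : ℝ) ≤ Y G (s n) i := by positivity
    have y1 : (Y G (s n) i : ℝ) ≤ NE G := by exact_mod_cast hA3b (s n) i
    have x0 := X_nonneg (B n) i
    have x1 := X_le_one (B n) i
    rw [abs_le]
    constructor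
    · nlinarith
    · nlinarith
  set n0 : ℕ := ⌈tot b0⌉₊ with hn0
  have hin : ∀ n : ℕ, n0 ≤ n → X (B n) ∈ Rg G := by
    intro n hn
    apply hA3f
    apply hInR
    exact (Nat.le_ceil _).trans (by exact_mod_cast hn)
  have hgt : ∀ n : ℕ, n0 ≤ n → tot b0 ≤ n := fun n hn =>
    (Nat.le_ceil _).trans (by exact_mod_cast hn)
  have hmR : (0 : ℝ) < m := by exact_mod_cast hm
  -- `gg → 0`
  have hgg : Tendsto (fun n => gg G α (X (B n))) atTop (𝓝 0) := by
    rw [← tendsto_add_atTop_iff_nat n0]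
    refine hL3 (fun k => gg G α (X (B (k + n0)))) (tot b0 + ((n0 : ℝ) + 1) * NE G) (NE G)
      (C2 * (m * NE G)) (by positivity) hN (by positivity) ?_ ?_ ?_
    · intro k
      exact hgg0 _ (hin _ (by omega))
    · have h2 := (summable_nat_add_iff n0).2 hω
      refine h2.congr ?_
      intro k
      have h3 : tot b0 ≤ ((k + n0 : ℕ) : ℝ) := hgt _ (by omega)
      rw [if_pos h3]
      congr 1
      push_cast
      ring
    · intro k
      have h3 := hlip _ (hin (k + 1 + n0) (by omega)) _ (hin (k + n0) (by omega))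
      refine h3.trans ?_
      have h4 : ∑ i, |X (B (k + 1 + n0)) i - X (B (k + n0)) i| ≤
          ∑ _i : Fin m, NE G / (tot b0 + (((k + n0 : ℕ) : ℝ) + 1) * NE G) := by
        apply Finset.sum_le_sum
        intro i _
        have e : k + 1 + n0 = (k + n0) + 1 := by omega
        rw [e]
        exact hstep (k + n0) i
      rw [Finset.sum_const, Finset.card_univ, Fintype.card_fin, nsmul_eq_mul] at h4
      have h5 := mul_le_mul_of_nonneg_left h4 hC2.le
      refine h5.trans (le_of_eq ?_)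
      rw [← mul_div_assoc, ← mul_div_assoc]
      congr 1
      push_cast
      ring
  have hcont : ContinuousOn (gg G α) (Rg G) := by
    intro x hx
    rw [ContinuousWithinAt, tendsto_iff_norm_sub_tendsto_zero]
    refine squeeze_zero' (Eventually.of_forall fun _ => norm_nonneg _)
      (g := fun y => C2 * ∑ i, |y i - x i|) ?_ ?_
    · filter_upwards [self_mem_nhdsWithin] with y hy
      exact hlip y hy x hx
    · have hc' : Continuous (fun y : Fin m → ℝ => C2 * ∑ i, |y i - x i|) := by fun_prop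
      have h0 := hc'.tendsto x
      simp only [sub_self, abs_zero, Finset.sum_const_zero, mul_zero] at h0
      exact h0.mono_left nhdsWithin_le_nhds
  have hfin' : {y ∈ Rg G | gg G α y = 0}.Finite := by
    refine hfin.subset ?_
    intro y hy
    exact ⟨hy.1, hzero y hy.1 hy.2⟩
  have hsteps : ∀ i, Tendsto (fun n => X (B (n + 1)) i - X (B n) i) atTop (𝓝 0) := by
    intro i
    refine squeeze_zero_norm (a := fun n : ℕ => (NE G : ℝ) / (tot b0 + ((n : ℝ) + 1) * NE G))
      (fun n => hstep n i) ?_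
    apply Tendsto.const_div_atTop
    apply tendsto_atTop_add_const_left
    apply Tendsto.atTop_mul_const hN
    exact tendsto_atTop_add_const_right _ _ tendsto_natCast_atTop_atTop
  obtain ⟨y, hyK, hy0, hyt⟩ := hL4 m (Rg G) (gg G α) (fun n => X (B n)) hcomp hcont hfin'
    (eventually_atTop.2 ⟨n0, fun n hn => hin n hn⟩) hgg hsteps
  exact ⟨y, ⟨hyK, hzero y hyK hy0⟩, hyt⟩

end Pool.Agent.H419R3.Urn
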